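import Pool.Agent.Helper57_K9.Stmts

/-! K9, row NZ: `χ(w b) ≠ 0`. -/

open scoped BigOperators

noncomputable section

namespace Pool.Agent.PP.K9.H6

open Pool.Agent.Helper51_AWC Pool.Agent.Helper79_WRA Pool.Agent.PP Pool.Agent.PP.KF

attribute [local instance] Ideal.Quotient.field

/-- NZ -/
theorem nz (omg : OmgStmt) (nzr : NzrStmt) : NzStmt := by
  intro ℓ _ M _ hM G _ _ e he V hV hab u hu b hb heb hgd w hw χ hχ h0
  have hbi : IsIdem b := hb.1
  have h1 := (omg M G u b hbi w hw).2 χ hχ.1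
  have h2 := nzr ℓ M hM G e he V hV hab u hu b hb heb hgd w hw χ hχ
  apply h2
  rw [← h1.2, h0, mul_zero, zero_div, rr_zero]

end Pool.Agent.PP.K9.H6
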