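import Pool.Agent.Helper57_K9.Stmts3
import Mathlib.NumberTheory.LegendreSymbol.AddCharacter
import Mathlib.RingTheory.Polynomial.Cyclotomic.Roots
import Mathlib.Analysis.RCLike.Basic

/-! KL, row GRA: from orthogonal vectors over `ℤ[ζ]` to integral vectors with Gram matrix
`I + e J`. -/

open scoped BigOperators

noncomputable section

namespace Pool.Agent.PP.K9.H6

open Pool.Agent.PP.K9

/-- linear independence of the powers `ζ, …, ζ ^ (ℓ - 1)` -/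
theorem li_nat (ℓ : ℕ) [hp : Fact ℓ.Prime] {ζ : ℂ} (hζ : IsPrimitiveRoot ζ ℓ) (c : ℕ → ℤ)
    (h : ∑ s : Fin (ℓ - 1), (c s : ℂ) * ζ ^ ((s : ℕ) + 1) = 0) : ∀ s : Fin (ℓ - 1), c s = 0 := by
  have hζ0 : ζ ≠ 0 := hζ.ne_zero hp.out.ne_zero
  set P : Polynomial ℚ := ∑ s : Fin (ℓ - 1), Polynomial.C (c s : ℚ) * Polynomial.X ^ (s : ℕ)
    with hP
  have h1 : Polynomial.aeval ζ P = 0 := by
    have h2 : ζ * Polynomial.aeval ζ P = 0 := by
      rw [← h, hP, map_sum, Finset.mul_sum]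
      refine Finset.sum_congr rfl fun s _ => ?_
      rw [map_mul, map_pow, Polynomial.aeval_C, Polynomial.aeval_X]
      simp only [map_intCast]
      ring
    exact (mul_eq_zero.mp h2).resolve_left hζ0
  have h3 : P = 0 := by
    by_contra hne
    have h4 := Polynomial.natDegree_le_natDegree (minpoly.degree_le_of_ne_zero ℚ ζ hne h1)
    rw [← Polynomial.cyclotomic_eq_minpoly_rat hζ hp.out.pos, Polynomial.natDegree_cyclotomic,
      Nat.totient_prime hp.out] at h4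
    have h5 : P.degree < ((ℓ - 1 : ℕ) : WithBot ℕ) := by
      rw [hP]; exact Polynomial.degree_sum_fin_lt (fun s : Fin (ℓ - 1) => (c s : ℚ))
    have h6 : P.natDegree < ℓ - 1 := by
      rwa [Polynomial.degree_eq_natDegree hne, Nat.cast_lt] at h5
    omega
  intro s
  have h7 : P.coeff s = 0 := by rw [h3]; simp
  rw [hP, Polynomial.finsetSum_coeff] at h7
  simp only [Polynomial.coeff_C_mul, Polynomial.coeff_X_pow] at h7
  rw [Finset.sum_eq_single s] at h7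
  · simpa using h7
  · intro t _ hts
    have : (s : ℕ) ≠ t := fun hh => hts (Fin.ext hh.symm)
    simp [this]
  · intro hs; exact absurd (Finset.mem_univ s) hs

section

variable {ℓ : ℕ} [hp : Fact ℓ.Prime] {ζ : ℂ}

/-- the character of `ℤ/ℓ` -/
def ch (hζ : IsPrimitiveRoot ζ ℓ) : AddChar (ZMod ℓ) ℂ := AddChar.zmodChar ℓ hζ.pow_eq_one

theorem ch_apply (hζ : IsPrimitiveRoot ζ ℓ) (x : ZMod ℓ) : ch hζ x = ζ ^ x.val := rfl

theorem ch_nat (hζ : IsPrimitiveRoot ζ ℓ) (n : ℕ) : ch hζ (n : ZMod ℓ) = ζ ^ n :=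
  AddChar.zmodChar_apply' hζ.pow_eq_one n

theorem ch_sum (hζ : IsPrimitiveRoot ζ ℓ) (z : ZMod ℓ) :
    ∑ x : ZMod ℓ, ch hζ (x * z) = if z = 0 then (ℓ : ℂ) else 0 := by
  have h := AddChar.sum_mulShift (ψ := ch hζ) z
    (AddChar.zmodChar_primitive_of_primitive_root ℓ hζ)
  rw [h, ZMod.card]
  split_ifs <;> simp

theorem ch_neg (hζ : IsPrimitiveRoot ζ ℓ) (x : ZMod ℓ) :
    starRingEnd ℂ (ch hζ x) = ch hζ (-x) := (AddChar.map_neg_eq_conj _ x).symm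

/-- sums over `ZMod ℓ` and over `range ℓ` -/
theorem sum_zmod (f : ℕ → ℂ) : ∑ x : ZMod ℓ, f x.val = ∑ s ∈ Finset.range ℓ, f s := by
  refine Finset.sum_bij (fun x _ => x.val) ?_ ?_ ?_ ?_
  · intro x _; exact Finset.mem_range.mpr (ZMod.val_lt x)
  · intro x _ y _ h; exact ZMod.val_injective ℓ h
  · intro s hs
    exact ⟨(s : ZMod ℓ), Finset.mem_univ _, ZMod.val_cast_of_lt (Finset.mem_range.mp hs)⟩
  · intro x _; rfl

/-- linear independence over `ZMod ℓ` -/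
theorem li (hζ : IsPrimitiveRoot ζ ℓ) (c : ZMod ℓ → ℤ) (h0 : c 0 = 0)
    (h : ∑ x : ZMod ℓ, (c x : ℂ) * ch hζ x = 0) : ∀ x, c x = 0 := by
  have hl : 1 ≤ ℓ := hp.out.one_lt.le
  have h1 : ∑ s : Fin (ℓ - 1), ((c ((((s : ℕ) + 1 : ℕ)) : ZMod ℓ) : ℤ) : ℂ) * ζ ^ ((s : ℕ) + 1)
      = 0 := by
    have h2 : ∑ x : ZMod ℓ, (c x : ℂ) * ch hζ x
        = ∑ s ∈ Finset.range ℓ, ((c (s : ZMod ℓ) : ℤ) : ℂ) * ζ ^ s := by
      rw [← sum_zmod (ℓ := ℓ) (fun s => ((c (s : ZMod ℓ) : ℤ) : ℂ) * ζ ^ s)]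
      refine Finset.sum_congr rfl fun x _ => ?_
      rw [ZMod.natCast_zmod_val, ch_apply]
    obtain ⟨k, rfl⟩ : ∃ k, ℓ = k + 1 := ⟨ℓ - 1, by omega⟩
    rw [h2, Finset.sum_range_succ'] at h
    simp only [Nat.cast_zero, h0, Int.cast_zero, zero_mul, add_zero] at h
    rw [← h]
    exact (Finset.sum_range (fun s => ((c (((s + 1 : ℕ)) : ZMod (k + 1)) : ℤ) : ℂ) *
      ζ ^ (s + 1))).symm
  have h3 := li_nat ℓ hζ (fun s => c (((s + 1 : ℕ)) : ZMod ℓ)) h1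
  intro x
  by_cases hx : x = 0
  · rw [hx, h0]
  · have hv : x.val ≠ 0 := fun hh => hx ((ZMod.val_eq_zero x).mp hh)
    have hlt := ZMod.val_lt x
    have h4 := h3 ⟨x.val - 1, by omega⟩
    have h5 : ((x.val - 1 + 1 : ℕ) : ZMod ℓ) = x := by
      rw [Nat.sub_add_cancel (by omega), ZMod.natCast_zmod_val]
    simpa only [h5] using h4

/-- sums over the units -/
theorem ch_units (hζ : IsPrimitiveRoot ζ ℓ) (z : ZMod ℓ) :
    ∑ u : (ZMod ℓ)ˣ, ch hζ ((u : ZMod ℓ) * z) = (if z = 0 then (ℓ : ℂ) else 0) - 1 := by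
  classical
  have h := ch_sum hζ z
  rw [← h, ← Finset.add_sum_erase Finset.univ _ (Finset.mem_univ (0 : ZMod ℓ)), zero_mul,
    AddChar.map_zero_eq_one, add_sub_cancel_left]
  refine Finset.sum_bij (fun u _ => (u : ZMod ℓ)) ?_ ?_ ?_ ?_
  · intro u _; exact Finset.mem_erase.mpr ⟨u.ne_zero, Finset.mem_univ _⟩
  · intro u _ v _ huv; exact Units.ext huv
  · intro x hx
    exact ⟨Units.mk0 x (Finset.ne_of_mem_erase hx), Finset.mem_univ _, rfl⟩
  · intro u _; rfl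

variable {ι : Type}

/-- the subgroup of the multipliers -/
def SS (N : ZMod ℓ → ι → ℤ) : Subgroup (ZMod ℓ)ˣ where
  carrier := {b | ∀ x i, N ((b : ZMod ℓ) * x) i = N x i}
  mul_mem' := by
    intro a b ha hb x i
    change ∀ x i, N ((a : ZMod ℓ) * x) i = N x i at ha
    change ∀ x i, N ((b : ZMod ℓ) * x) i = N x i at hb
    rw [Units.val_mul, mul_assoc, ha, hb]
  one_mem' := by intro x i; simp
  inv_mem' := by
    intro a ha x i
    change ∀ x i, N ((a : ZMod ℓ) * x) i = N x i at ha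
    rw [← ha, Units.mul_inv_cancel_left]

/-- the Fourier transform -/
def DD (hζ : IsPrimitiveRoot ζ ℓ) (N : ZMod ℓ → ι → ℤ) (j : ZMod ℓ) (i : ι) : ℂ :=
  ∑ x : ZMod ℓ, (N x i : ℂ) * ch hζ (x * j)

theorem dd_scale (hζ : IsPrimitiveRoot ζ ℓ) (N : ZMod ℓ → ι → ℤ) (b u : (ZMod ℓ)ˣ) (i : ι) :
    DD hζ N ((b : ZMod ℓ) * u) i = ∑ x : ZMod ℓ, (N ((b⁻¹ : (ZMod ℓ)ˣ) * x) i : ℂ) *
      ch hζ (x * u) := by
  unfold DD
  refine (Equiv.sum_comp (Units.mulLeft (b⁻¹)) _).symm.trans ?_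
  refine Finset.sum_congr rfl fun x _ => ?_
  simp only [Units.mulLeft_apply]
  congr 2
  rw [show ((b⁻¹ : (ZMod ℓ)ˣ) : ZMod ℓ) * x * ((b : ZMod ℓ) * u)
    = (((b⁻¹ : (ZMod ℓ)ˣ) : ZMod ℓ) * b) * (x * u) by ring, Units.inv_mul, one_mul]

theorem dd_mem (hζ : IsPrimitiveRoot ζ ℓ) (N : ZMod ℓ → ι → ℤ) (b u : (ZMod ℓ)ˣ)
    (hb : b ∈ SS N) (i : ι) : DD hζ N ((b : ZMod ℓ) * u) i = DD hζ N u i := by
  rw [dd_scale]
  refine Finset.sum_congr rfl fun x _ => ?_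
  rw [(SS N).inv_mem hb x i]

theorem mem_dd (hζ : IsPrimitiveRoot ζ ℓ) (N : ZMod ℓ → ι → ℤ) (hN : ∀ i, N 0 i = 0)
    (b u : (ZMod ℓ)ˣ) (h : ∀ i, DD hζ N ((b : ZMod ℓ) * u) i = DD hζ N u i) : b ∈ SS N := by
  have hinv : b⁻¹ ∈ SS N := by
    intro x i
    -- the difference
    have h1 : ∑ y : ZMod ℓ, ((N ((b⁻¹ : (ZMod ℓ)ˣ) * ((u⁻¹ : (ZMod ℓ)ˣ) * y)) i
        - N ((u⁻¹ : (ZMod ℓ)ˣ) * y) i : ℤ) : ℂ) * ch hζ y = 0 := by
      have h2 := h i
      rw [dd_scale] at h2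
      unfold DD at h2
      have e1 : ∑ x : ZMod ℓ, (N ((b⁻¹ : (ZMod ℓ)ˣ) * x) i : ℂ) * ch hζ (x * u)
          = ∑ y : ZMod ℓ, (N ((b⁻¹ : (ZMod ℓ)ˣ) * ((u⁻¹ : (ZMod ℓ)ˣ) * y)) i : ℂ) * ch hζ y := by
        refine (Equiv.sum_comp (Units.mulLeft (u⁻¹)) _).symm.trans ?_
        refine Finset.sum_congr rfl fun y _ => ?_
        simp only [Units.mulLeft_apply]
        rw [show ((u⁻¹ : (ZMod ℓ)ˣ) : ZMod ℓ) * y * (u : ZMod ℓ)
          = (((u⁻¹ : (ZMod ℓ)ˣ) : ZMod ℓ) * u) * y by ring, Units.inv_mul, one_mul]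
      have e2 : ∑ x : ZMod ℓ, (N x i : ℂ) * ch hζ (x * u)
          = ∑ y : ZMod ℓ, (N ((u⁻¹ : (ZMod ℓ)ˣ) * y) i : ℂ) * ch hζ y := by
        refine (Equiv.sum_comp (Units.mulLeft (u⁻¹)) _).symm.trans ?_
        refine Finset.sum_congr rfl fun y _ => ?_
        simp only [Units.mulLeft_apply]
        rw [show ((u⁻¹ : (ZMod ℓ)ˣ) : ZMod ℓ) * y * (u : ZMod ℓ)
          = (((u⁻¹ : (ZMod ℓ)ˣ) : ZMod ℓ) * u) * y by ring, Units.inv_mul, one_mul]
      rw [e1, e2] at h2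
      rw [← sub_eq_zero, ← Finset.sum_sub_distrib] at h2
      rw [← h2]
      refine Finset.sum_congr rfl fun y _ => ?_
      push_cast
      ring
    have h3 := li hζ (fun y => N ((b⁻¹ : (ZMod ℓ)ˣ) * ((u⁻¹ : (ZMod ℓ)ˣ) * y)) i
        - N ((u⁻¹ : (ZMod ℓ)ˣ) * y) i) (by simp only [mul_zero, hN, sub_self]) h1
          ((u : ZMod ℓ) * x)
    simp only [Units.inv_mul_cancel_left] at h3
    linarith
  simpa using (SS N).inv_mem hinv

/-- inversion -/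
theorem inv_dd (hζ : IsPrimitiveRoot ζ ℓ) (N : ZMod ℓ → ι → ℤ) (hN : ∀ i, N 0 i = 0)
    (x : ZMod ℓ) (i : ι) : (ℓ : ℂ) * N x i
      = ∑ j : (ZMod ℓ)ˣ, (ch hζ (-((j : ZMod ℓ) * x)) - 1) * DD hζ N j i := by
  have h1 : ∀ y : ZMod ℓ, ∑ j : (ZMod ℓ)ˣ, (ch hζ (-((j : ZMod ℓ) * x)) - 1) *
      ((N y i : ℂ) * ch hζ (y * j))
      = (N y i : ℂ) * ((if y - x = 0 then (ℓ : ℂ) else 0) - (if y = 0 then (ℓ : ℂ) else 0)) := by
    intro y
    have e1 := ch_units hζ (y - x)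
    have e2 := ch_units hζ y
    rw [show ((if y - x = 0 then (ℓ : ℂ) else 0) - (if y = 0 then (ℓ : ℂ) else 0))
      = ((if y - x = 0 then (ℓ : ℂ) else 0) - 1) - ((if y = 0 then (ℓ : ℂ) else 0) - 1) by ring,
      ← e1, ← e2, ← Finset.sum_sub_distrib, Finset.mul_sum]
    refine Finset.sum_congr rfl fun j _ => ?_
    have e3 : ch hζ ((j : ZMod ℓ) * (y - x)) = ch hζ (-((j : ZMod ℓ) * x)) * ch hζ (y * j) := by
      rw [← AddChar.map_add_eq_mul]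
      congr 1
      ring
    rw [e3, mul_comm (j : ZMod ℓ) y]
    ring
  unfold DD
  simp only [Finset.mul_sum]
  rw [Finset.sum_comm]
  simp only [h1, sub_eq_zero]
  have h2 : ∑ y : ZMod ℓ, (N y i : ℂ) * ((if y = x then (ℓ : ℂ) else 0)
      - (if y = 0 then (ℓ : ℂ) else 0)) = (N x i : ℂ) * ℓ - (N 0 i : ℂ) * ℓ := by
    simp [mul_sub, Finset.sum_sub_distrib]
  rw [h2, hN]
  push_cast
  ring

/-- the Gram matrix -/
theorem gram (hζ : IsPrimitiveRoot ζ ℓ) [Fintype ι] (N : ZMod ℓ → ι → ℤ) (hN : ∀ i, N 0 i = 0)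
    [DecidablePred (· ∈ SS N)]
    (hD : ∀ b u : (ZMod ℓ)ˣ, ∑ i, DD hζ N u i * starRingEnd ℂ (DD hζ N ((b : ZMod ℓ) * u) i)
      = if b ∈ SS N then (ℓ : ℂ) else 0) (x y : (ZMod ℓ)ˣ) :
    ∑ i, N x i * N y i = (if x * y⁻¹ ∈ SS N then 1 else 0) + (Nat.card (SS N) : ℤ) := by
  classical
  have hl : (ℓ : ℂ) ≠ 0 := Nat.cast_ne_zero.mpr hp.out.ne_zero
  have hconj : ∀ z : ZMod ℓ, ∀ i, (ℓ : ℂ) * N z i
      = ∑ j : (ZMod ℓ)ˣ, (ch hζ ((j : ZMod ℓ) * z) - 1) * starRingEnd ℂ (DD hζ N j i) := by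
    intro z i
    have h := congrArg (starRingEnd ℂ) (inv_dd hζ N hN z i)
    simp only [map_mul, map_natCast, map_intCast, map_sum, map_sub, map_one, ch_neg,
      neg_neg] at h
    exact h
  have h1 : (ℓ : ℂ) * ((ℓ : ℂ) * ∑ i, (N x i : ℂ) * N y i)
      = ∑ j : (ZMod ℓ)ˣ, ∑ b : (ZMod ℓ)ˣ, (ch hζ (-((j : ZMod ℓ) * x)) - 1) *
        (ch hζ ((b : ZMod ℓ) * j * y) - 1) * (if b ∈ SS N then (ℓ : ℂ) else 0) := by
    have h2 : (ℓ : ℂ) * ((ℓ : ℂ) * ∑ i, (N x i : ℂ) * N y i)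
        = ∑ i, ((ℓ : ℂ) * N x i) * ((ℓ : ℂ) * N y i) := by
      rw [Finset.mul_sum, Finset.mul_sum]
      exact Finset.sum_congr rfl fun i _ => by ring
    rw [h2]
    have h3 : ∀ i, ((ℓ : ℂ) * N x i) * ((ℓ : ℂ) * N y i)
        = ∑ j : (ZMod ℓ)ˣ, ∑ b : (ZMod ℓ)ˣ, (ch hζ (-((j : ZMod ℓ) * x)) - 1) *
          (ch hζ ((b : ZMod ℓ) * j * y) - 1) *
          (DD hζ N j i * starRingEnd ℂ (DD hζ N ((b : ZMod ℓ) * j) i)) := by
      intro i
      rw [inv_dd hζ N hN x i, hconj y i, Finset.sum_mul]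
      refine Finset.sum_congr rfl fun j _ => ?_
      rw [Finset.mul_sum]
      refine (Equiv.sum_comp (Equiv.mulRight j) _).symm.trans ?_
      refine Finset.sum_congr rfl fun b _ => ?_
      simp only [Equiv.coe_mulRight, Units.val_mul]
      ring
    rw [Finset.sum_congr rfl fun i _ => h3 i, Finset.sum_comm]
    refine Finset.sum_congr rfl fun j _ => ?_
    rw [Finset.sum_comm]
    refine Finset.sum_congr rfl fun b _ => ?_
    rw [← Finset.mul_sum, hD b j]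
  have h4 : ∀ b : (ZMod ℓ)ˣ, ∑ j : (ZMod ℓ)ˣ, (ch hζ (-((j : ZMod ℓ) * x)) - 1) *
      (ch hζ ((b : ZMod ℓ) * j * y) - 1) = (if b * y = x then (ℓ : ℂ) else 0) + ℓ := by
    intro b
    have e1 := ch_units hζ ((b : ZMod ℓ) * y - x)
    have e2 := ch_units hζ (-(x : ZMod ℓ))
    have e3 := ch_units hζ ((b : ZMod ℓ) * y)
    rw [if_neg (neg_ne_zero.mpr x.ne_zero)] at e2
    rw [if_neg (mul_ne_zero b.ne_zero y.ne_zero)] at e3
    have e0 : ∑ j : (ZMod ℓ)ˣ, (1 : ℂ) = ℓ - 1 := by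
      rw [Finset.sum_const, Finset.card_univ, ZMod.card_units_eq_totient,
        Nat.totient_prime hp.out, nsmul_eq_mul, mul_one, Nat.cast_sub hp.out.one_lt.le,
        Nat.cast_one]
    have e5 : (if (b : ZMod ℓ) * y - x = 0 then (ℓ : ℂ) else 0)
        = (if b * y = x then (ℓ : ℂ) else 0) := by
      by_cases hb : b * y = x
      · rw [if_pos hb, if_pos]
        rw [← hb]; simp
      · rw [if_neg hb, if_neg]
        intro hh
        exact hb (Units.ext (by simpa using sub_eq_zero.mp hh))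
    rw [e5] at e1
    have e6 : ∀ j : (ZMod ℓ)ˣ, (ch hζ (-((j : ZMod ℓ) * x)) - 1) *
        (ch hζ ((b : ZMod ℓ) * j * y) - 1) = ch hζ ((j : ZMod ℓ) * ((b : ZMod ℓ) * y - x))
          - ch hζ ((j : ZMod ℓ) * (-(x : ZMod ℓ))) - ch hζ ((j : ZMod ℓ) * ((b : ZMod ℓ) * y))
          + 1 := by
      intro j
      have e7 : ch hζ ((j : ZMod ℓ) * ((b : ZMod ℓ) * y - x))
          = ch hζ (-((j : ZMod ℓ) * x)) * ch hζ ((b : ZMod ℓ) * j * y) := by
        rw [← AddChar.map_add_eq_mul]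
        congr 1
        ring
      rw [e7, show (j : ZMod ℓ) * (-(x : ZMod ℓ)) = -((j : ZMod ℓ) * x) by ring,
        show (j : ZMod ℓ) * ((b : ZMod ℓ) * y) = (b : ZMod ℓ) * j * y by ring]
      ring
    rw [Finset.sum_congr rfl fun j _ => e6 j, Finset.sum_add_distrib, Finset.sum_sub_distrib,
      Finset.sum_sub_distrib, e1, e2, e3, e0]
    ring
  have h5 : (ℓ : ℂ) * ((ℓ : ℂ) * ∑ i, (N x i : ℂ) * N y i)
      = (ℓ : ℂ) * ((ℓ : ℂ) * ((if x * y⁻¹ ∈ SS N then 1 else 0) + (Nat.card (SS N) : ℂ))) := by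
    rw [h1, Finset.sum_comm]
    have h6 : ∀ b : (ZMod ℓ)ˣ, ∑ j : (ZMod ℓ)ˣ, (ch hζ (-((j : ZMod ℓ) * x)) - 1) *
        (ch hζ ((b : ZMod ℓ) * j * y) - 1) * (if b ∈ SS N then (ℓ : ℂ) else 0)
        = (ℓ : ℂ) * (ℓ : ℂ) * ((if b = x * y⁻¹ then (if x * y⁻¹ ∈ SS N then 1 else 0) else 0)
          + (if b ∈ SS N then 1 else 0)) := by
      intro b
      rw [← Finset.sum_mul, h4 b]
      by_cases hb : b = x * y⁻¹
      · have hb' : b * y = x := by rw [hb]; simp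
        rw [if_pos hb', if_pos hb, ← hb]
        by_cases hm : b ∈ SS N <;> simp [hm]
        ring
      · have hb' : b * y ≠ x := fun hh => hb (by rw [← hh]; simp)
        rw [if_neg hb', if_neg hb]
        by_cases hm : b ∈ SS N <;> simp [hm]
    rw [Finset.sum_congr rfl fun b _ => h6 b, ← Finset.mul_sum, Finset.sum_add_distrib,
      Finset.sum_ite_eq' Finset.univ, if_pos (Finset.mem_univ _), mul_assoc]
    congr 3
    rw [Finset.sum_boole, Nat.card_eq_fintype_card, Fintype.card_subtype]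
  have h7 := mul_left_cancel₀ hl (mul_left_cancel₀ hl h5)
  have h8 : ((∑ i, N x i * N y i : ℤ) : ℂ)
      = (((if x * y⁻¹ ∈ SS N then 1 else 0) + (Nat.card (SS N) : ℤ) : ℤ) : ℂ) := by
    push_cast
    rw [h7]
  exact_mod_cast h8

end

/-- GRA -/
theorem gra : GraStmt := by
  intro ℓ hp ι _ ζ hζ a deg δ hδ h1 h2
  classical
  have hpos := hp.out.pos
  set N : ZMod ℓ → ι → ℤ := fun x i => a i x.val - a i 0 with hNdef
  have hN : ∀ i, N 0 i = 0 := by intro i; simp [hNdef, ZMod.val_zero]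
  have hD : ∀ (j : (ZMod ℓ)ˣ) (i : ι), DD hζ N j i = δ (j : ZMod ℓ).val i := by
    intro j i
    have e1 : ∑ x : ZMod ℓ, ch hζ (x * (j : ZMod ℓ)) = 0 := by
      rw [ch_sum, if_neg j.ne_zero]
    have e2 : ∀ x : ZMod ℓ, ch hζ (x * (j : ZMod ℓ)) = ζ ^ (x.val * (j : ZMod ℓ).val) := by
      intro x
      rw [← ch_nat hζ (x.val * (j : ZMod ℓ).val), Nat.cast_mul, ZMod.natCast_zmod_val,
        ZMod.natCast_zmod_val]
    rw [hδ, ← sum_zmod (ℓ := ℓ) (fun s => (a i s : ℂ) * ζ ^ (s * (j : ZMod ℓ).val))]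
    have e3 : DD hζ N j i = ∑ x : ZMod ℓ, (a i x.val : ℂ) * ch hζ (x * (j : ZMod ℓ))
        - (a i 0 : ℂ) * ∑ x : ZMod ℓ, ch hζ (x * (j : ZMod ℓ)) := by
      unfold DD
      rw [Finset.mul_sum, ← Finset.sum_sub_distrib]
      refine Finset.sum_congr rfl fun x _ => ?_
      rw [hNdef]
      push_cast
      ring
    rw [e3, e1, mul_zero, sub_zero]
    exact Finset.sum_congr rfl fun x _ => by rw [e2]
  have hval : ∀ u : (ZMod ℓ)ˣ, (u : ZMod ℓ).val ∈ Finset.Ico 1 ℓ := by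
    intro u
    refine Finset.mem_Ico.mpr ⟨?_, ZMod.val_lt _⟩
    have : (u : ZMod ℓ).val ≠ 0 := fun hh => u.ne_zero ((ZMod.val_eq_zero _).mp hh)
    omega
  have hO : ∀ b u : (ZMod ℓ)ˣ, ∑ i, DD hζ N u i *
      starRingEnd ℂ (DD hζ N ((b : ZMod ℓ) * u) i) = if b ∈ SS N then (ℓ : ℂ) else 0 := by
    intro b u
    by_cases hb : b ∈ SS N
    · rw [if_pos hb, ← (h1 _ (hval u)).2.1]
      refine Finset.sum_congr rfl fun i _ => ?_
      rw [dd_mem hζ N b u hb, hD]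
    · rw [if_neg hb]
      have e1 : ∀ i, DD hζ N ((b : ZMod ℓ) * u) i = δ ((b * u : (ZMod ℓ)ˣ) : ZMod ℓ).val i := by
        intro i
        rw [← hD, Units.val_mul]
      rcases h2 _ (hval u) _ (hval (b * u)) with h | h
      · exact absurd (mem_dd hζ N hN b u (fun i => by rw [e1, ← h i, hD])) hb
      · rw [← h]
        exact Finset.sum_congr rfl fun i _ => by rw [e1, hD]
  have hG := gram hζ N hN hO
  -- the classes
  have hfin : Finite ((ZMod ℓ)ˣ ⧸ SS N) := inferInstance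
  set q : ((ZMod ℓ)ˣ ⧸ SS N) ≃ Fin (Nat.card ((ZMod ℓ)ˣ ⧸ SS N)) := Finite.equivFin _ with hq
  have hout : ∀ (u : (ZMod ℓ)ˣ) (i : ι),
      N (((QuotientGroup.mk u : (ZMod ℓ)ˣ ⧸ SS N).out : (ZMod ℓ)ˣ) : ZMod ℓ) i
        = N (u : ZMod ℓ) i := by
    intro u i
    obtain ⟨s, hs⟩ := QuotientGroup.mk_out_eq_mul (SS N) u
    rw [hs, Units.val_mul, mul_comm]
    exact s.2 _ _
  have hcard : Nat.card (ZMod ℓ)ˣ = ℓ - 1 := by
    rw [Nat.card_eq_fintype_card, ZMod.card_units_eq_totient, Nat.totient_prime hp.out]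
  -- not all zero
  have hne : ∀ i, ∃ u : (ZMod ℓ)ˣ, N (u : ZMod ℓ) i ≠ 0 := by
    intro i
    by_contra hcon
    push Not at hcon
    have h3 : DD hζ N ((1 : (ZMod ℓ)ˣ) : ZMod ℓ) i = 0 := by
      unfold DD
      refine Finset.sum_eq_zero fun x _ => ?_
      have h4 : N x i = 0 := by
        by_cases hx : x = 0
        · rw [hx, hN]
        · exact hcon (Units.mk0 x hx)
      rw [h4]
      push_cast
      ring
    rw [hD] at h3
    exact (h1 _ (hval 1)).1 i h3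
  -- degrees
  have hdeg : ∀ x : ZMod ℓ, ∑ i, N x i * deg i = 0 := by
    refine li hζ (fun x => ∑ i, N x i * deg i) (by simp [hN]) ?_
    have h3 := (h1 _ (hval 1)).2.2
    have h4 : ∑ x : ZMod ℓ, ((∑ i, N x i * deg i : ℤ) : ℂ) * ch hζ x
        = ∑ i, δ ((1 : (ZMod ℓ)ˣ) : ZMod ℓ).val i * deg i := by
      have h5 : ∀ i, δ ((1 : (ZMod ℓ)ˣ) : ZMod ℓ).val i * (deg i : ℂ)
          = ∑ x : ZMod ℓ, (N x i : ℂ) * deg i * ch hζ x := by
        intro i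
        rw [← hD]
        unfold DD
        rw [Finset.sum_mul]
        refine Finset.sum_congr rfl fun x _ => ?_
        rw [Units.val_one, mul_one]
        ring
      rw [Finset.sum_congr rfl fun i _ => h5 i, Finset.sum_comm]
      refine Finset.sum_congr rfl fun x _ => ?_
      push_cast
      rw [Finset.sum_mul]
    rw [h4, h3]
  refine ⟨Nat.card ((ZMod ℓ)ˣ ⧸ SS N), Nat.card (SS N),
    fun j i => N (((q.symm j).out : (ZMod ℓ)ˣ) : ZMod ℓ) i,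
    fun s => if h : (s : ZMod ℓ) ≠ 0 then
      q (QuotientGroup.mk (Units.mk0 (s : ZMod ℓ) h)) else q (QuotientGroup.mk 1),
    Nat.card_pos, ?_, ?_, ?_, ?_, ?_⟩
  · rw [← hcard]
    exact (Subgroup.card_eq_card_quotient_mul_card_subgroup (SS N)).symm
  · intro s hs i
    obtain ⟨hs1, hs2⟩ := Finset.mem_Ico.mp hs
    have hv : ((s : ZMod ℓ)).val = s := ZMod.val_cast_of_lt hs2
    have hs0 : (s : ZMod ℓ) ≠ 0 := by
      intro hh
      rw [hh, ZMod.val_zero] at hv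
      omega
    simp only [hs0, ne_eq, not_false_eq_true, dif_pos, Equiv.symm_apply_apply]
    rw [hout, Units.val_mk0, hNdef]
    simp only [hv]
  · intro j j'
    rw [hG]
    congr 1
    have h3 : (((q.symm j).out : (ZMod ℓ)ˣ) * ((q.symm j').out : (ZMod ℓ)ˣ)⁻¹ ∈ SS N) ↔ j = j' := by
      rw [← (q.symm).injective.eq_iff]
      conv_rhs => rw [← QuotientGroup.out_eq' (q.symm j), ← QuotientGroup.out_eq' (q.symm j')]
      rw [QuotientGroup.eq, ← (SS N).inv_mem_iff, mul_inv_rev, inv_inv, mul_comm]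
    by_cases hj : j = j'
    · rw [if_pos hj, if_pos (h3.mpr hj)]
    · rw [if_neg hj, if_neg (fun hh => hj (h3.mp hh))]
  · intro i
    obtain ⟨u, hu⟩ := hne i
    refine ⟨q (QuotientGroup.mk u), ?_⟩
    simp only [Equiv.symm_apply_apply]
    rw [hout]
    exact hu
  · intro j
    exact hdeg _

end Pool.Agent.PP.K9.H6
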